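import Pool.Agent.P8H47.EC3.Stm
import Pool.Agent.P8H55.EC2.Ap

/-! # Project EC3, package IMM: a cyclic extension of degree `p` generated by a `p`-th root of a
principal unit is immediate -/

set_option autoImplicit false

open Polynomial

namespace Pool.Agent.P8H54.EC3

open Pool.Agent.P8H47.EC2 (UU)

section W

variable {F : Type} [Field F]

lemma mem_sup (A B : ValuationSubring F) (x : F) (hx : x ∈ A ⊔ B) :
    ∃ a ∈ A, ∃ b ∈ B, x = a * b := by
  let P : Subring F := {
    carrier := {x | ∃ a ∈ A, ∃ b ∈ B, x = a * b}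
    mul_mem' := by
      rintro x y ⟨a, ha, b, hb, rfl⟩ ⟨c, hc, d, hd, rfl⟩
      exact ⟨a * c, A.mul_mem _ _ ha hc, b * d, B.mul_mem _ _ hb hd, by ring⟩
    one_mem' := ⟨1, A.one_mem, 1, B.one_mem, by simp⟩
    zero_mem' := ⟨0, A.zero_mem, 1, B.one_mem, by simp⟩
    neg_mem' := by
      rintro x ⟨a, ha, b, hb, rfl⟩
      exact ⟨-a, A.neg_mem _ ha, b, hb, by ring⟩
    add_mem' := by
      intro x y hx hy
      by_cases x0 : x = 0
      · rw [x0, zero_add]; exact hy
      by_cases y0 : y = 0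
      · rw [y0, add_zero]; exact hx
      rcases A.mem_or_inv_mem (x / y) with h | h
      · obtain ⟨a, ha, b, hb, e⟩ := hy
        refine ⟨(1 + x / y) * a, A.mul_mem _ _ (A.add_mem _ _ A.one_mem h) ha, b, hb, ?_⟩
        rw [mul_assoc, ← e, add_mul, one_mul, div_mul_cancel₀ _ y0, add_comm]
      · obtain ⟨a, ha, b, hb, e⟩ := hx
        rw [inv_div] at h
        refine ⟨(1 + y / x) * a, A.mul_mem _ _ (A.add_mem _ _ A.one_mem h) ha, b, hb, ?_⟩
        rw [mul_assoc, ← e, add_mul, one_mul, div_mul_cancel₀ _ x0] }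
  have h : A.toSubring ⊔ B.toSubring ≤ P :=
    sup_le (fun a ha => ⟨a, ha, 1, B.one_mem, by simp⟩) (fun b hb => ⟨1, A.one_mem, b, hb, by simp⟩)
  exact h hx

lemma cmp {A B C : ValuationSubring F} (h1 : A ≤ B) (h2 : A ≤ C) : B ≤ C ∨ C ≤ B :=
  le_total (⟨B, h1⟩ : {S // A ≤ S}) ⟨C, h2⟩

lemma stab_pow (W : ValuationSubring F) (τ : F →+* F) (h : ∀ x ∈ W, τ x ∈ W) (n : ℕ) (x : F)
    (hx : x ∈ W) : (τ ^ n) x ∈ W := by
  induction n with
  | zero => exact hx
  | succ n ih =>
    rw [pow_succ', RingHom.mul_def, RingHom.comp_apply]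
    exact h _ ih

lemma stab_inv (W : ValuationSubring F) (τ : F →+* F) {p : ℕ} (hp : 0 < p) (hτ : τ ^ p = 1)
    (h : ∀ x ∈ W, τ x ∈ W) (x : F) (hx : τ x ∈ W) : x ∈ W := by
  have h1 := stab_pow W τ h (p - 1) _ hx
  have h2 : (τ ^ (p - 1)) (τ x) = (τ ^ p) x := by
    conv_rhs => rw [← Nat.sub_add_cancel hp, pow_succ]
    rfl
  rw [h2, hτ] at h1
  exact h1

lemma winv (A : ValuationSubring F) (τ : F →+* F) {p : ℕ} (hp : 0 < p) (hτ : τ ^ p = 1)
    (x : F) : τ x ∈ A ⊔ A.comap τ ↔ x ∈ A ⊔ A.comap τ := by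
  obtain ⟨W, hW⟩ : ∃ W, W = A ⊔ A.comap τ := ⟨_, rfl⟩
  rw [← hW]
  obtain ⟨ρ, hρ⟩ : ∃ ρ : F →+* F, ρ = τ ^ (p - 1) := ⟨_, rfl⟩
  have h1 : ∀ x, τ (ρ x) = x := fun x => by
    have : τ * ρ = 1 := by rw [hρ, ← pow_succ', Nat.sub_add_cancel hp, hτ]
    exact DFunLike.congr_fun this x
  have h2 : ∀ x, ρ (τ x) = x := fun x => by
    have : ρ * τ = 1 := by rw [hρ, ← pow_succ, Nat.sub_add_cancel hp, hτ]
    exact DFunLike.congr_fun this x
  have hρp : ρ ^ p = 1 := by rw [hρ, ← pow_mul, mul_comm, pow_mul, hτ, one_pow]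
  have hA : A ≤ W.comap ρ := by
    intro x hx
    rw [ValuationSubring.mem_comap, hW]
    have : ρ x ∈ A.comap τ := by
      rw [ValuationSubring.mem_comap, h1]
      exact hx
    exact (le_sup_right : A.comap τ ≤ A ⊔ A.comap τ) this
  have hA' : A ≤ W := by rw [hW]; exact le_sup_left
  rcases cmp hA' hA with h | h
  · have h' : ∀ x ∈ W, ρ x ∈ W := fun x hx => h hx
    constructor
    · intro hx
      have := h' _ hx
      rwa [h2] at this
    · intro hx
      exact stab_inv W ρ hp hρp h' _ (by rw [h2]; exact hx)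
  · have h' : ∀ x, ρ x ∈ W → x ∈ W := fun x hx => h hx
    have h'' : ∀ x ∈ W, τ x ∈ W := fun x hx => h' _ (by rw [h2]; exact hx)
    exact ⟨fun hx => stab_inv W τ hp hτ h'' _ hx, fun hx => h'' _ hx⟩

lemma lt_iff (W : ValuationSubring F) {x : F} (hx : x ≠ 0) : W.valuation x < 1 ↔ x⁻¹ ∉ W := by
  rw [← ValuationSubring.valuation_le_one_iff, map_inv₀, not_le, one_lt_inv₀]
  exact zero_lt_iff.2 ((W.valuation.ne_zero_iff).2 hx)

lemma lt_inv (W : ValuationSubring F) (τ : F →+* F) (h : ∀ x, τ x ∈ W ↔ x ∈ W) (n : ℕ) (x : F)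
    (hx : W.valuation x < 1) : W.valuation ((τ ^ n) x) < 1 := by
  induction n with
  | zero => exact hx
  | succ n ih =>
    rw [pow_succ', RingHom.mul_def, RingHom.comp_apply]
    by_cases h0 : (τ ^ n) x = 0
    · rw [h0, map_zero, map_zero]; exact zero_lt_one
    · rw [lt_iff W h0] at ih
      rw [lt_iff W (by simpa using h0), ← map_inv₀, h]
      exact ih

lemma uu_of (A B : ValuationSubring F) (x : Fˣ) (h1 : (x : F) ∈ A ⊔ B) (h2 : (x : F)⁻¹ ∈ A ⊔ B) :
    x ∈ UU A B :=
  ⟨mem_sup A B _ h1, by rw [Units.val_inv_eq_inv_val]; exact mem_sup A B _ h2⟩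

lemma v_diff (O : ValuationSubring F) {p : ℕ} {z : F} (hz : IsPrimitiveRoot z p)
    (hp : p.Prime) (hv : O.valuation (p : F) = 1) {i j : ℕ} (hi : i < p) (hj : j < p)
    (hij : i ≠ j) : O.valuation (z ^ i - z ^ j) = 1 := by
  have hz0 : z ≠ 0 := hz.ne_zero hp.ne_zero
  have hz1 : O.valuation z = 1 := by
    have := congrArg O.valuation hz.pow_eq_one
    rw [map_pow, map_one] at this
    exact (pow_eq_one_iff_of_nonneg zero_le' hp.ne_zero).1 this
  obtain ⟨r, hr⟩ : ∃ r, r = z ^ i / z ^ j := ⟨_, rfl⟩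
  have hr1 : r ≠ 1 := by
    intro h
    rw [hr, div_eq_one_iff_eq (pow_ne_zero _ hz0)] at h
    exact hij (hz.pow_inj hi hj h)
  have hvr : O.valuation r = 1 := by
    rw [hr, map_div₀, map_pow, map_pow, hz1, one_pow, one_pow, div_one]
  have hrp : r ^ p = 1 := by
    rw [hr, div_pow, ← pow_mul, ← pow_mul, mul_comm i, mul_comm j, pow_mul, pow_mul,
      hz.pow_eq_one]
    simp
  have hsum : ∑ l ∈ Finset.range p, r ^ l = 0 := by
    have := geom_sum_mul r p
    rw [hrp, sub_self, mul_eq_zero, sub_eq_zero] at this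
    exact this.resolve_right hr1
  have h1 : O.valuation (1 - r) = 1 := by
    by_contra hne
    have hle : O.valuation (1 - r) ≤ 1 :=
      (O.valuation.map_sub _ _).trans (by rw [map_one, hvr]; exact max_le le_rfl le_rfl)
    have hlt := lt_of_le_of_ne hle hne
    have hl : ∀ l ∈ Finset.range p, O.valuation (1 - r ^ l) < 1 := by
      intro l _
      rw [← mul_neg_geom_sum, map_mul]
      have h3 : O.valuation (∑ i ∈ Finset.range l, r ^ i) ≤ 1 :=
        O.valuation.map_sum_le fun i _ => by rw [map_pow, hvr, one_pow]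
      calc O.valuation (1 - r) * O.valuation (∑ i ∈ Finset.range l, r ^ i)
          ≤ O.valuation (1 - r) * 1 := mul_le_mul_right h3 _
        _ < 1 := by rw [mul_one]; exact hlt
    have h2 : O.valuation (∑ l ∈ Finset.range p, (1 - r ^ l)) < 1 :=
      O.valuation.map_sum_lt one_ne_zero hl
    rw [Finset.sum_sub_distrib, hsum, sub_zero, Finset.sum_const, Finset.card_range,
      nsmul_eq_mul, mul_one, hv] at h2
    exact lt_irrefl _ h2
  have h3 : z ^ i - z ^ j = - (z ^ j * (1 - r)) := by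
    rw [hr, mul_sub, mul_one, mul_div_cancel₀ _ (pow_ne_zero _ hz0)]
    ring
  rw [h3, Valuation.map_neg, map_mul, map_pow, hz1, one_pow, one_mul, h1]

end W

section G

variable {E E' : Type} [Field E] [Field E'] [Algebra E E']

lemma pw_alg {s : E' →+* E'} (hs : ∀ a : E, s (algebraMap E E' a) = algebraMap E E' a) (n : ℕ)
    (a : E) : (s ^ n) (algebraMap E E' a) = algebraMap E E' a := by
  induction n with
  | zero => rfl
  | succ n ih => rw [pow_succ, RingHom.mul_def, RingHom.comp_apply, hs, ih]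

lemma pw_al {s : E' →+* E'} (hs : ∀ a : E, s (algebraMap E E' a) = algebraMap E E' a) {ζ : E}
    {α : E'} (h : s α = algebraMap E E' ζ * α) (n : ℕ) :
    (s ^ n) α = algebraMap E E' (ζ ^ n) * α := by
  induction n with
  | zero => simp
  | succ n ih =>
    rw [pow_succ, RingHom.mul_def, RingHom.comp_apply, h, map_mul, pw_alg hs, ih, ← mul_assoc,
      ← map_mul, pow_succ']

lemma pw_sum {s : E' →+* E'} (hs : ∀ a : E, s (algebraMap E E' a) = algebraMap E E' a) {ζ : E}
    {α : E'} (h : s α = algebraMap E E' ζ * α) (n : ℕ) (b : ℕ → E) (p : ℕ) :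
    (s ^ n) (∑ i ∈ Finset.range p, algebraMap E E' (b i) * α ^ i) =
      ∑ i ∈ Finset.range p, algebraMap E E' (b i * (ζ ^ n) ^ i) * α ^ i := by
  rw [map_sum]
  refine Finset.sum_congr rfl fun i _ => ?_
  rw [map_mul, pw_alg hs, map_pow, pw_al hs h, mul_pow, ← map_pow, ← mul_assoc, ← map_mul]

lemma proj {p : ℕ} (hp : p.Prime) {η : E} (hη : IsPrimitiveRoot η p) (α : E') (b : ℕ → E)
    (k : ℕ) (hk : k < p) :
    ∑ l ∈ Finset.range p, algebraMap E E' (((η ^ k)⁻¹) ^ l) *
      ∑ i ∈ Finset.range p, algebraMap E E' (b i * (η ^ l) ^ i) * α ^ i =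
        p * (algebraMap E E' (b k) * α ^ k) := by
  have hη0 : η ≠ 0 := hη.ne_zero hp.ne_zero
  simp_rw [Finset.mul_sum]
  rw [Finset.sum_comm, Finset.sum_eq_single_of_mem k (Finset.mem_range.2 hk)]
  · have : ∀ l ∈ Finset.range p, algebraMap E E' (((η ^ k)⁻¹) ^ l) *
        (algebraMap E E' (b k * (η ^ l) ^ k) * α ^ k) = algebraMap E E' (b k) * α ^ k := by
      intro l _
      rw [← mul_assoc, ← map_mul]
      have h2 : ((η ^ k)⁻¹) ^ l * (b k * (η ^ l) ^ k) = b k := by
        have h3 : (η ^ l) ^ k = (η ^ k) ^ l := by rw [← pow_mul, ← pow_mul, mul_comm]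
        rw [h3, inv_pow, mul_left_comm, inv_mul_cancel₀ (pow_ne_zero _ (pow_ne_zero _ hη0)),
          mul_one]
      rw [h2]
    rw [Finset.sum_congr rfl this, Finset.sum_const, Finset.card_range, nsmul_eq_mul]
  · intro i hi hik
    have hi' := Finset.mem_range.1 hi
    obtain ⟨r, hr⟩ : ∃ r, r = η ^ i / η ^ k := ⟨_, rfl⟩
    have hr1 : r ≠ 1 := by
      intro h
      rw [hr, div_eq_one_iff_eq (pow_ne_zero _ hη0)] at h
      exact hik (hη.pow_inj hi' hk h)
    have hrp : r ^ p = 1 := by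
      rw [hr, div_pow, ← pow_mul, ← pow_mul, mul_comm i, mul_comm k, pow_mul, pow_mul,
        hη.pow_eq_one]
      simp
    have hsum : ∑ l ∈ Finset.range p, r ^ l = 0 := by
      have := geom_sum_mul r p
      rw [hrp, sub_self, mul_eq_zero, sub_eq_zero] at this
      exact this.resolve_right hr1
    have : ∀ l ∈ Finset.range p, algebraMap E E' (((η ^ k)⁻¹) ^ l) *
        (algebraMap E E' (b i * (η ^ l) ^ i) * α ^ i) =
          algebraMap E E' (b i) * α ^ i * algebraMap E E' (r ^ l) := by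
      intro l _
      have h3 : (η ^ l) ^ i = (η ^ i) ^ l := by rw [← pow_mul, ← pow_mul, mul_comm]
      rw [h3, hr, div_pow, div_eq_mul_inv, inv_pow, map_mul, map_mul]
      ring
    rw [Finset.sum_congr rfl this, ← Finset.mul_sum, ← map_sum, hsum, map_zero, mul_zero]

end G

theorem imm : Pool.Agent.P8H47.EC3.S_IMM := by
  intro p hp E E' _ _ _ ζ hζ O' α y hpi hα hy hα1 hαr hadj x hx
  have hinj := (algebraMap E E').injective
  have hζ' : IsPrimitiveRoot (algebraMap E E' ζ) p := hζ.map_of_injective hinj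
  have : NeZero p := ⟨hp.ne_zero⟩
  have hpE : (p : E) ≠ 0 := (hζ.neZero').out
  have hpE' : (p : E') ≠ 0 := (hζ'.neZero').out
  have hζ0 : ζ ≠ 0 := hζ.ne_zero hp.ne_zero
  -- valuations
  have hvp : O'.valuation (p : E') = 1 := by
    apply le_antisymm
    · rw [ValuationSubring.valuation_le_one_iff]
      exact natCast_mem O' p
    · by_contra h
      rw [not_le, lt_iff O' hpE'] at h
      exact h hpi
  have hvζ : O'.valuation (algebraMap E E' ζ) = 1 := by
    have := congrArg O'.valuation hζ'.pow_eq_one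
    rw [map_pow, map_one] at this
    exact (pow_eq_one_iff_of_nonneg zero_le' hp.ne_zero).1 this
  have hvζn : ∀ n : ℕ, O'.valuation (algebraMap E E' (ζ ^ n)) = 1 := fun n => by
    rw [map_pow, map_pow, hvζ, one_pow]
  have hvα : O'.valuation α = 1 := by
    have h1 : α = 1 + (α - 1) := by ring
    rw [h1]
    exact Valuation.map_one_add_of_lt O'.valuation hα1
  -- irreducibility, the power basis
  have irr : Irreducible (X ^ p - C (1 + y) : E[X]) := by
    refine X_pow_sub_C_irreducible_of_prime hp fun b hb => hαr ?_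
    have h1 : α ^ p = (algebraMap E E' b) ^ p := by rw [hα, ← hb, map_pow]
    obtain ⟨i, hi⟩ := Pool.Agent.Y469.EP.root_eq hp hζ α (algebraMap E E' b) h1
    exact ⟨ζ ^ i * b, by rw [map_mul, hi]⟩
  have hroot : ∀ β : E', β ^ p = algebraMap E E' (1 + y) →
      aeval β (X ^ p - C (1 + y) : E[X]) = 0 := by
    intro β hβ
    rw [map_sub, map_pow, aeval_X, aeval_C, hβ, sub_self]
  have hmon : (X ^ p - C (1 + y) : E[X]).Monic := monic_X_pow_sub_C _ hp.ne_zero
  have hint : IsIntegral E α := ⟨X ^ p - C (1 + y), hmon, hroot α hα⟩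
  have hmin : minpoly E α = X ^ p - C (1 + y) :=
    (minpoly.eq_of_irreducible_of_monic irr (hroot α hα) hmon).symm
  have hadj' : Algebra.adjoin E {α} = ⊤ := by
    rw [← IntermediateField.adjoin_simple_toSubalgebra_of_isAlgebraic hint.isAlgebraic, hadj,
      IntermediateField.top_toSubalgebra]
  obtain ⟨pb, hgen, hdim⟩ : ∃ pb : PowerBasis E E', pb.gen = α ∧ pb.dim = p := by
    refine ⟨PowerBasis.ofAdjoinEqTop hint hadj', PowerBasis.ofAdjoinEqTop_gen _ _, ?_⟩
    rw [PowerBasis.ofAdjoinEqTop_dim, hmin, natDegree_X_pow_sub_C]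
  obtain ⟨s, hs, hsα⟩ : ∃ s : E' →+* E', (∀ a : E, s (algebraMap E E' a) = algebraMap E E' a) ∧
      s α = algebraMap E E' ζ * α := by
    have h1 : aeval (algebraMap E E' ζ * α) (minpoly E pb.gen) = 0 := by
      rw [hgen, hmin]
      apply hroot
      rw [mul_pow, ← map_pow, hζ.pow_eq_one, map_one, one_mul, hα]
    refine ⟨(pb.lift _ h1 : E' →ₐ[E] E').toRingHom, fun a => (pb.lift _ h1).commutes a, ?_⟩
    have := pb.lift_gen _ h1
    rw [hgen] at this
    exact this
  have hrep : ∀ z : E', ∃ b : ℕ → E, z = ∑ i ∈ Finset.range p, algebraMap E E' (b i) * α ^ i := by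
    intro z
    obtain ⟨f, e⟩ := pb.exists_eq_aeval' z
    refine ⟨(f %ₘ (X ^ p - C (1 + y))).coeff, ?_⟩
    have h1 : aeval α f = aeval α (f %ₘ (X ^ p - C (1 + y))) := by
      conv_lhs => rw [← modByMonic_add_div f (X ^ p - C (1 + y))]
      rw [map_add, map_mul, hroot α hα, zero_mul, add_zero]
    have h2 : (f %ₘ (X ^ p - C (1 + y))).natDegree < p := by
      have := natDegree_modByMonic_lt f hmon (by
        intro h
        have h3 := congrArg natDegree h
        rw [natDegree_X_pow_sub_C, natDegree_one] at h3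
        exact hp.ne_zero h3)
      rwa [natDegree_X_pow_sub_C] at this
    rw [e, hgen, h1, aeval_eq_sum_range' h2]
    exact Finset.sum_congr rfl fun i _ => Algebra.smul_def _ _
  have hsp : s ^ p = 1 := by
    refine RingHom.ext fun z => ?_
    obtain ⟨b, hb⟩ := hrep z
    rw [hb, pw_sum hs hsα, hζ.pow_eq_one]
    simp
  have hfix : ∀ z : E', s z = z → ∃ e : E, z = algebraMap E E' e := by
    intro z hz
    have hz' : ∀ n : ℕ, (s ^ n) z = z := by
      intro n
      induction n with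
      | zero => rfl
      | succ n ih => rw [pow_succ, RingHom.mul_def, RingHom.comp_apply, hz, ih]
    obtain ⟨b, hb⟩ := hrep z
    refine ⟨b 0, ?_⟩
    have h1 := proj hp hζ α b 0 hp.pos
    have h2 : ∀ l ∈ Finset.range p, algebraMap E E' (((ζ ^ 0)⁻¹) ^ l) *
        ∑ i ∈ Finset.range p, algebraMap E E' (b i * (ζ ^ l) ^ i) * α ^ i = z := by
      intro l _
      rw [← pw_sum hs hsα, ← hb, hz' l, pow_zero, inv_one, one_pow, map_one, one_mul]
    rw [Finset.sum_congr rfl h2, Finset.sum_const, Finset.card_range, nsmul_eq_mul, pow_zero,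
      mul_one] at h1
    exact mul_left_cancel₀ hpE' h1
  -- the rings and the n_i
  obtain ⟨O, hO⟩ : ∃ O : ℕ → ValuationSubring E', ∀ j, O j = O'.comap (s ^ j) :=
    ⟨fun j => O'.comap (s ^ j), fun _ => rfl⟩
  have hOm : ∀ j z, z ∈ O j ↔ O'.valuation ((s ^ j) z) ≤ 1 := fun j z => by
    rw [hO, ValuationSubring.mem_comap, ValuationSubring.valuation_le_one_iff]
  have hn0 : ∀ i : ℕ, α - algebraMap E E' (ζ ^ i) ≠ 0 := fun i h =>
    hαr ⟨ζ ^ i, (sub_eq_zero.1 h).symm⟩
  obtain ⟨n, hn⟩ : ∃ n : ℕ → E'ˣ, ∀ i, (n i : E') = α - algebraMap E E' (ζ ^ i) :=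
    ⟨fun i => Units.mk0 _ (hn0 i), fun _ => rfl⟩
  have hsn : ∀ i j : ℕ, (s ^ j) (n i : E') =
      algebraMap E E' (ζ ^ j) * (α - 1) + ((algebraMap E E' ζ) ^ j - (algebraMap E E' ζ) ^ i) := by
    intro i j
    rw [hn, map_sub, pw_al hs hsα, pw_alg hs, map_pow, map_pow]
    ring
  have hlt : ∀ j : ℕ, O'.valuation (algebraMap E E' (ζ ^ j) * (α - 1)) < 1 := fun j => by
    rw [map_mul, hvζn, one_mul]
    exact hα1
  have hni : ∀ i, O'.valuation ((s ^ i) (n i : E')) < 1 := fun i => by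
    rw [hsn, sub_self, add_zero]
    exact hlt i
  have hnj : ∀ i j, i < p → j < p → i ≠ j → O'.valuation ((s ^ j) (n i : E')) = 1 := by
    intro i j hi hj hij
    rw [hsn]
    have h1 := v_diff O' hζ' hp hvp hj hi (Ne.symm hij)
    rw [Valuation.map_add_eq_of_lt_right _ (by rw [h1]; exact hlt j), h1]
  -- the representation of x
  obtain ⟨a, ha⟩ := hrep x
  obtain ⟨k, hk, hmax⟩ := Finset.exists_max_image (Finset.range p)
    (fun i => O'.valuation (algebraMap E E' (a i))) ⟨0, Finset.mem_range.2 hp.pos⟩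
  have hk' := Finset.mem_range.1 hk
  have hak : a k ≠ 0 := by
    intro h0
    apply hx
    rw [ha]
    refine Finset.sum_eq_zero fun i hi => ?_
    have h1 := hmax i hi
    rw [h0, map_zero, map_zero] at h1
    have h2 := (Valuation.zero_iff _).1 (le_antisymm h1 zero_le')
    rw [h2, zero_mul]
  have hak' : algebraMap E E' (a k) ≠ 0 := (map_ne_zero_iff _ hinj).2 hak
  obtain ⟨b, hb⟩ : ∃ b : ℕ → E, ∀ i, b i = a i / a k := ⟨fun i => a i / a k, fun _ => rfl⟩
  have hbk : b k = 1 := by rw [hb, div_self hak]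
  have hbv : ∀ i ∈ Finset.range p, O'.valuation (algebraMap E E' (b i)) ≤ 1 := by
    intro i hi
    rw [hb, map_div₀, map_div₀]
    exact div_le_one_of_le₀ (hmax i hi) zero_le'
  obtain ⟨u, hu⟩ : ∃ u : E'ˣ, (u : E') = x / algebraMap E E' (a k) :=
    ⟨Units.mk0 _ (div_ne_zero hx hak'), rfl⟩
  have hub : (u : E') = ∑ i ∈ Finset.range p, algebraMap E E' (b i) * α ^ i := by
    rw [hu, ha, Finset.sum_div]
    refine Finset.sum_congr rfl fun i _ => ?_
    rw [hb, map_div₀]
    ring
  have huj : ∀ j, (u : E') ∈ O j := by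
    intro j
    rw [hOm, hub, pw_sum hs hsα]
    refine Valuation.map_sum_le _ fun i hi => ?_
    rw [map_mul, map_mul, map_mul, ← pow_mul, hvζn, map_pow, hvα, one_pow, mul_one, mul_one]
    exact hbv i hi
  have hO0 : O 0 = O' := by
    ext z
    rw [hOm, ValuationSubring.valuation_le_one_iff]
    rfl
  have huu : ∀ j, 0 < j → j < p → u ∈ UU (O 0) (O j) := by
    intro j hj0 hjp
    by_contra hnot
    obtain ⟨W, hW⟩ : ∃ W, W = O 0 ⊔ O j := ⟨_, rfl⟩
    have huW : (u : E') ∈ O 0 ⊔ O j := (le_sup_left : O 0 ≤ O 0 ⊔ O j) (huj 0)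
    have huW' : (u : E')⁻¹ ∉ W := by
      rw [hW]
      exact fun h => hnot (uu_of _ _ u huW h)
    have hinv : ∀ z, (s ^ j) z ∈ W ↔ z ∈ W := by
      intro z
      rw [hW, hO0, hO]
      exact winv O' (s ^ j) hp.pos (by rw [← pow_mul, mul_comm, pow_mul, hsp, one_pow]) z
    have hlt' : ∀ l, W.valuation (((s ^ j) ^ l) (u : E')) < 1 := fun l =>
      lt_inv W (s ^ j) hinv l _ ((lt_iff W u.ne_zero).2 huW')
    have hη : IsPrimitiveRoot (ζ ^ j) p :=
      hζ.pow_of_coprime j (Nat.coprime_of_lt_prime hj0.ne' hjp hp).symm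
    have h1 := proj hp hη α b k hk'
    have hOW : O' ≤ W := by
      rw [hW, ← hO0]
      exact le_sup_left
    have hWζ : ∀ m l : ℕ, W.valuation (algebraMap E E' ((((ζ ^ j) ^ m)⁻¹) ^ l)) ≤ 1 := by
      intro m l
      rw [ValuationSubring.valuation_le_one_iff]
      apply hOW
      rw [← ValuationSubring.valuation_le_one_iff, map_pow, map_inv₀, map_pow, map_inv₀, ← pow_mul,
        hvζn, inv_one, one_pow]
    have h2 : W.valuation (∑ l ∈ Finset.range p, algebraMap E E' ((((ζ ^ j) ^ k)⁻¹) ^ l) *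
      ∑ i ∈ Finset.range p, algebraMap E E' (b i * ((ζ ^ j) ^ l) ^ i) * α ^ i) < 1 := by
      refine Valuation.map_sum_lt _ one_ne_zero fun l _ => ?_
      rw [map_mul]
      have h3 : ∑ i ∈ Finset.range p, algebraMap E E' (b i * ((ζ ^ j) ^ l) ^ i) * α ^ i =
          ((s ^ j) ^ l) (u : E') := by
        rw [hub, ← pow_mul, ← pow_mul, pw_sum hs hsα]
      rw [h3]
      calc W.valuation (algebraMap E E' ((((ζ ^ j) ^ k)⁻¹) ^ l)) *
            W.valuation (((s ^ j) ^ l) (u : E')) ≤ 1 * W.valuation (((s ^ j) ^ l) (u : E')) :=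
            mul_le_mul_left (hWζ k l) _
        _ < 1 := by rw [one_mul]; exact hlt' l
    rw [h1, hbk, map_one, one_mul] at h2
    have h4 : (p : E') * α ^ k ≠ 0 := by
      intro h5
      have h6 := congrArg O'.valuation h5
      rw [map_mul, hvp, map_pow, hvα, one_pow, one_mul, map_zero] at h6
      exact one_ne_zero h6
    rw [lt_iff W h4] at h2
    apply h2
    apply hOW
    rw [← ValuationSubring.valuation_le_one_iff, map_inv₀, map_mul, hvp, map_pow, hvα, one_pow,
      one_mul, inv_one]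
  -- the approximation
  have hunit : ∀ (A B : ValuationSubring E') (z : E'ˣ), (z : E') ∈ B → ((z : E')⁻¹) ∈ B →
      z ∈ UU A B := by
    intro A B z h1 h2
    exact uu_of A B z ((le_sup_right : B ≤ A ⊔ B) h1) ((le_sup_right : B ≤ A ⊔ B) h2)
  obtain ⟨c, hc⟩ := Pool.Agent.P8H55.EC2.ap E' ℕ O (Finset.range p) n
    (fun i => if i = 0 then u else 1) (by
      intro i _
      constructor
      · rw [hOm]
        exact (hni i).le
      · rw [hOm, map_inv₀, map_inv₀, not_le]
        refine (one_lt_inv₀ (zero_lt_iff.2 ?_)).2 (hni i)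
        rw [Valuation.ne_zero_iff, Ne, map_eq_zero]
        exact (n i).ne_zero) (by
      intro i hi j hj hij
      have hi' := Finset.mem_range.1 hi
      have hj' := Finset.mem_range.1 hj
      constructor
      · apply hunit
        · rw [hOm, hnj i j hi' hj' hij]
        · rw [hOm, map_inv₀, map_inv₀, hnj i j hi' hj' hij, inv_one]
      · by_cases h0 : i = 0
        · subst h0
          simp only [if_true]
          exact huu j (Nat.pos_of_ne_zero (Ne.symm hij)) hj'
        · simp only [h0, if_false]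
          exact one_mem _)
  -- the norm
  obtain ⟨S, hS⟩ : ∃ S : ℕ → E'ˣ →* E'ˣ, ∀ j z, ((S j z : E'ˣ) : E') = (s ^ j) (z : E') :=
    ⟨fun j => Units.map ((s ^ j : E' →+* E') : E' →* E'), fun _ _ => rfl⟩
  obtain ⟨N, hN⟩ : ∃ N : E'ˣ, N = ∏ j ∈ Finset.range p, S j c := ⟨_, rfl⟩
  have hSN : s (N : E') = N := by
    have h1 : ∀ z : E'ˣ, ((S 1 z : E'ˣ) : E') = s (z : E') := fun z => by rw [hS, pow_one]
    rw [← h1]
    congr 1
    rw [hN, map_prod]
    have h2 : ∀ j ∈ Finset.range p, S 1 (S j c) = S (j + 1) c := by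
      intro j _
      ext
      rw [hS, hS, hS, pow_one, pow_succ', RingHom.mul_def, RingHom.comp_apply]
    rw [Finset.prod_congr rfl h2]
    have h3 : (∏ j ∈ Finset.range p, S (j + 1) c) * S 0 c =
        (∏ j ∈ Finset.range p, S j c) * S p c := by
      rw [← Finset.prod_range_succ' (fun j => S j c), Finset.prod_range_succ]
    have h4 : S p c = S 0 c := by
      ext
      rw [hS, hS, hsp, pow_zero]
    rw [h4] at h3
    exact mul_right_cancel h3
  obtain ⟨f0, hf0⟩ := hfix _ hSN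
  have hNu : N * u⁻¹ ∈ O'.principalUnitGroup := by
    obtain ⟨q, rfl⟩ : ∃ q, p = q + 1 := ⟨p - 1, (Nat.sub_add_cancel hp.pos).symm⟩
    rw [hN, Finset.prod_range_succ', mul_assoc]
    refine mul_mem (Subgroup.prod_mem _ fun j hj => ?_) ?_
    · have hj' := Finset.mem_range.1 hj
      rw [ValuationSubring.mem_principalUnitGroup_iff, hS]
      obtain ⟨d, hd, e⟩ := hc (j + 1) (Finset.mem_range.2 (by omega))
      simp only [Nat.add_eq_zero_iff, one_ne_zero, and_false, if_false, Units.val_one, one_mul] at e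
      rw [e, map_add, map_one, add_sub_cancel_left, map_mul, map_mul]
      rw [hOm] at hd
      calc O'.valuation ((s ^ (j + 1)) (n (j + 1) : E')) * O'.valuation ((s ^ (j + 1)) d)
          ≤ O'.valuation ((s ^ (j + 1)) (n (j + 1) : E')) * 1 := mul_le_mul_right hd _
        _ < 1 := by rw [mul_one]; exact hni _
    · obtain ⟨d, hd, e⟩ := hc 0 (Finset.mem_range.2 (by omega))
      simp only [if_true] at e
      rw [ValuationSubring.mem_principalUnitGroup_iff, Units.val_mul, hS, e, pow_zero,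
        Units.val_inv_eq_inv_val]
      have h1 : (1 : E' →+* E') ((u : E') * (1 + (n 0 : E') * d)) * (u : E')⁻¹ - 1 =
          (n 0 : E') * d := by
        have := u.ne_zero
        rw [RingHom.one_def, RingHom.id_apply]
        field_simp
        ring
      rw [h1, map_mul]
      rw [hOm, pow_zero] at hd
      have h2 := hni 0
      rw [pow_zero] at h2
      calc O'.valuation (n 0 : E') * O'.valuation d ≤ O'.valuation (n 0 : E') * 1 :=
            mul_le_mul_right hd _
        _ < 1 := by rw [mul_one]; exact h2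
  have hNu' := inv_mem hNu
  rw [ValuationSubring.mem_principalUnitGroup_iff] at hNu'
  refine ⟨a k * f0, mul_ne_zero hak ?_, _, hNu', ?_⟩
  · rintro rfl
    rw [map_zero] at hf0
    exact N.ne_zero hf0
  · rw [map_mul, ← hf0, mul_inv_rev, inv_inv, Units.val_mul, Units.val_inv_eq_inv_val, hu]
    have := N.ne_zero
    field_simp
    ring

end Pool.Agent.P8H54.EC3
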